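import Mathlib
import Pool.Agent.H983R4.GL.F3
import Pool.Agent.H855R2.SF.Dir
import Pool.Agent.TH804.FM3

/-!
# Large values of L-functions of `GL(m)` repel zeros and small values; density criteria for Lindelöf

Let `π` run through (a family of) cuspidal representations of `GL(m)`, normalised as in the problem, let
`X = (1 + |T|) C_π` and let `Q = N ∏ (1 + |μ_j - iT|)` be the analytic conductor at height `T`, so that the mean
number of zeros of `L(s, π)` with ordinates in `[T, T + r]` is `(r / 2π) log Q`.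

**Large values.**  Let `V = |L(1/2 + iT, π)| ≥ 1` and `D = log Q - 4 log V + ε log X`.  If `X` is large, then `D > 0`
and there is `T₀` at bounded distance from `T` with `|L(1/2 + iT₀, π)| ≥ V` such that
* (gap) `|L(1/2 + it, π)| ≥ X^(-ε) V` for `|t - T₀| ≤ π / D`;
* (few zeros) for all `R ≤ 1/2`, `∑ log (R / |ρ - s₀|) ≤ (R / π) D`, sum over the zeros `ρ` (with multiplicities) in
  the disc of radius `R` about `s₀ = 1/2 + iT₀`.  (Zeros on the critical line of the mean density would give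
  `(R / π) log Q`.)
* (few small values) the same bound, up to `+ 1`, for every finite set of points `s` of the disc at which
  `|L(s, π)| ≤ X^(-ε) V` and whose ordinates are separated by `η / log X`, if `R ≤ c ε η`.

**Density criteria.**  Suppose that for every `ε > 0` there are `η > 0` and arbitrarily small `r > 0` such that, for
`X` large, there are at least `(1/θ) (r / 2π) log Q - ε r log X` points in the box `|Re s - 1/2| ≤ r`,
`T ≤ Im s ≤ T + r`, with ordinates separated by `η / log X`, at which `|L(s, π)| ≤ X^(κ + ε)`.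
Then `L(1/2 + iT, π) = O(X^ε max(X^κ, Q^((1 - 1/θ)/4)))`.  For `θ ≤ 1` this is an equivalence with
`L(1/2 + iT, π) = O(X^(κ + ε))`; and the Lindelöf hypothesis for the family is equivalent to the existence
of small values (`|L| ≤ X^ε`) with the mean density of the zeros in all short boxes around the critical line.

**Zeros.**  If for every `ε > 0` and arbitrarily small `r > 0`, for `X` large, the box `|Re s - 1/2| ≤ r`,
`T ≤ Im s < T + r` contains at least `(1 - δ) (r / 2π) log Q - ε r log X` zeros (with multiplicities), then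
`L(1/2 + iT, π) = O(X^ε Q^(δ / 4))`.

The theorem uses only classical facts: the functional equation, `Re μ_j < 1/2`, finite order, and Molteni's
bound `L(σ + it, π) = O(C_π^ε)` in `σ ≥ 1 + ε`.  For primitive Dirichlet characters of modulus `q > 1`
(`m = 1`) all of them are proved and the result holds with `X = Q = q (1 + |T|)`.

Proof.  By the functional equation and the three lines theorem `L(s₀ + z)`, multiplied by
`Q^(z/2) X^(c z^2)`, is at most `M exp(τ |Re z|)` near `z = 0`, where `s₀` is a (weighted) maximum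
`M ≥ V` on the critical line and `2 τ = log Q - 4 log V + O(ε log X)`.  Jensen's formula at `s₀` gives the law for the
zeros (the mean of `|Re z|` on the circle of radius `R` is `2R/π`).  For small values one subtracts the
interpolation polynomial, which is small because the product of the differences of separated points is not too
small; the gap comes from a local form of the sampling inequality of Duffin and Schaeffer (`W587.PL`).
-/

set_option autoImplicit false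

open Filter Topology MeasureTheory Real Set

namespace Pool.Agent.Results.MP_52e316_nt.DensityCriterionGLm

/-- The data of a standard L-function of `GL(m)`: the conductor `N`, the archimedean parameters `mu j` (the
factor at infinity is `∏ j, Γ_ℝ (s - mu j)`) and the L-function `f` (continued to the complex plane). -/
structure Datum (m : ℕ) where
  N : ℕ
  mu : Fin m → ℂ
  f : ℂ → ℂ

/-- The analytic conductor `C = N ∏ j, (1 + |mu j|)`. -/
noncomputable def Datum.C {m : ℕ} (D : Datum m) : ℝ := D.N * ∏ j, (1 + ‖D.mu j‖)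

/-- The analytic conductor at height `t`, `Q = N ∏ j, (1 + |mu j - i t|)`. -/
noncomputable def Datum.Q {m : ℕ} (D : Datum m) (t : ℝ) : ℝ :=
  D.N * ∏ j, (1 + ‖D.mu j - t * Complex.I‖)

/-- The classical properties: `N ≥ 1`, `Re (mu j) < 1/2`, `f` is entire, of finite order in the strip
`-1/4 ≤ Re s ≤ 5/4`, and satisfies the functional equation `Λ(s) = root N^(1/2-s) conj (Λ(1 - conj s))`,
`Λ(s) = f(s) ∏ j, Γ_ℝ (s - mu j)`, with `|root| = 1` (divided by the gamma factors of both sides). -/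
structure Datum.Ok {m : ℕ} (D : Datum m) : Prop where
  N_pos : 0 < D.N
  mu_re : ∀ j, (D.mu j).re < 1 / 2
  entire : Differentiable ℂ D.f
  order : ∃ A : ℝ, ∀ s : ℂ, -1 / 4 ≤ s.re → s.re ≤ 5 / 4 →
    ‖D.f s‖ ≤ Real.exp (A * (1 + |s.im|) ^ A)
  fe : ∃ root : ℂ, ‖root‖ = 1 ∧ ∀ s : ℂ,
    D.f s * ∏ j, (Complex.Gammaℝ (1 - s - (starRingEnd ℂ) (D.mu j)))⁻¹ =
      root * (D.N : ℂ) ^ (1 / 2 - s) * (starRingEnd ℂ) (D.f (1 - (starRingEnd ℂ) s)) *
        ∏ j, (Complex.Gammaℝ (s - D.mu j))⁻¹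

/-- Molteni's bound to the right of the critical strip, uniform in the family. -/
def Molteni {ι : Type} {m : ℕ} (D : ι → Datum m) : Prop := ∀ ε : ℝ, 0 < ε → ∃ B : ℝ, ∀ (i : ι) (s : ℂ),
  1 + ε ≤ s.re → ‖(D i).f s‖ ≤ B * (D i).C ^ ε

variable {ι : Type}

/-- `|L i (1/2 + iT)| = O(X^(κ + ε))`, uniformly in the family; `κ = 0` is the Lindelöf hypothesis. -/
def Exponent (L : ι → ℂ → ℂ) (X : ι → ℝ → ℝ) (κ : ℝ) : Prop :=
  ∀ ε : ℝ, 0 < ε → ∃ B : ℝ, ∀ (i : ι) (T : ℝ), ‖L i (1 / 2 + T * Complex.I)‖ ≤ B * X i T ^ (κ + ε)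

/-- For every `ε > 0` there are `η > 0` and arbitrarily small `r > 0` such that for all `i`, `T` with `X i T` large
there are at least `(1/θ) (r / 2π) log Q - ε r log X` points `s` with `|Re s - 1/2| ≤ r`, `T ≤ Im s ≤ T + r` and
`|L i s| ≤ X^(κ + ε)`, the ordinates of any two of which differ by at least `η / log X`. -/
def Dense (L : ι → ℂ → ℂ) (X Q : ι → ℝ → ℝ) (θ κ : ℝ) : Prop := ∀ ε : ℝ, 0 < ε → ∃ η : ℝ, 0 < η ∧
  ∀ r₀ : ℝ, 0 < r₀ → ∃ r X₀ : ℝ, 0 < r ∧ r ≤ r₀ ∧ ∀ (i : ι) (T : ℝ), X₀ ≤ X i T → ∃ S : Finset ℂ,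
    (∀ s ∈ S, |s.re - 1 / 2| ≤ r ∧ T ≤ s.im ∧ s.im ≤ T + r ∧ ‖L i s‖ ≤ X i T ^ (κ + ε)) ∧
    (∀ s ∈ S, ∀ s' ∈ S, s ≠ s' → η / Real.log (X i T) ≤ |s.im - s'.im|) ∧
    r * Real.log (Q i T) / (2 * Real.pi * θ) ≤ S.card + ε * r * Real.log (X i T)

/-- For every `ε > 0` there are arbitrarily small `r > 0` such that for all `i`, `T` with `X i T` large
the box `|Re s - 1/2| ≤ r`, `T ≤ Im s < T + r` contains at least `(1 - δ) (r / 2π) log Q - ε r log X` zeros of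
`L i`, counted with multiplicities. -/
def ZeroDense (L : ι → ℂ → ℂ) (X Q : ι → ℝ → ℝ) (δ : ℝ) : Prop := ∀ ε : ℝ, 0 < ε →
  ∀ r₀ : ℝ, 0 < r₀ → ∃ r X₀ : ℝ, 0 < r ∧ r ≤ r₀ ∧ ∀ (i : ι) (T : ℝ), X₀ ≤ X i T → ∃ S : Finset ℂ,
    (∀ s ∈ S, |s.re - 1 / 2| ≤ r ∧ T ≤ s.im ∧ s.im < T + r) ∧
    (1 - δ) * (r * Real.log (Q i T) / (2 * Real.pi)) ≤
      ∑ s ∈ S, (analyticOrderNatAt (L i) s : ℝ) + ε * r * Real.log (X i T)

/-- `D = log Q - 4 log |L i (1/2 + iT)| + ε log X` -/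
noncomputable def DD (L : ι → ℂ → ℂ) (X Q : ι → ℝ → ℝ) (i : ι) (ε T : ℝ) : ℝ :=
  Real.log (Q i T) - 4 * Real.log ‖L i (1 / 2 + T * Complex.I)‖ + ε * Real.log (X i T)

/-- The law for large values: the three assertions of the introduction, uniformly in the family. -/
def LargeValueLaw (L : ι → ℂ → ℂ) (X Q : ι → ℝ → ℝ) : Prop := ∃ c : ℝ, 0 < c ∧ ∀ ε : ℝ, 0 < ε → ε ≤ 1 →
  ∃ W X₁ : ℝ, ∀ (i : ι) (T : ℝ), X₁ ≤ X i T → 1 ≤ ‖L i (1 / 2 + T * Complex.I)‖ →
    0 < DD L X Q i ε T ∧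
    ∃ T₀ : ℝ, |T₀ - T| ≤ W ∧ ‖L i (1 / 2 + T * Complex.I)‖ ≤ ‖L i (1 / 2 + T₀ * Complex.I)‖ ∧
      (∀ t : ℝ, |t - T₀| ≤ Real.pi / DD L X Q i ε T →
        X i T ^ (-ε) * ‖L i (1 / 2 + T * Complex.I)‖ ≤ ‖L i (1 / 2 + t * Complex.I)‖) ∧
      (∀ R : ℝ, 0 < R → R ≤ 1 / 2 → ∀ S : Finset ℂ,
        (∀ s ∈ S, ‖s - (1 / 2 + T₀ * Complex.I)‖ ≤ R) →
        ∑ s ∈ S, (analyticOrderNatAt (L i) s : ℝ) *
            Real.log (R / ‖s - (1 / 2 + T₀ * Complex.I)‖) ≤
          R / Real.pi * DD L X Q i ε T) ∧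
      ∀ η R : ℝ, 0 < η → η ≤ 1 → 0 < R → R ≤ c * ε * η → ∀ S : Finset ℂ,
        (∀ s ∈ S, ‖s - (1 / 2 + T₀ * Complex.I)‖ ≤ R) →
        (∀ s ∈ S, ‖L i s‖ ≤ X i T ^ (-ε) * ‖L i (1 / 2 + T * Complex.I)‖) →
        (∀ s ∈ S, ∀ s' ∈ S, s ≠ s' → η / Real.log (X i T) ≤ |s.im - s'.im|) →
        ∑ s ∈ S, Real.log (R / ‖s - (1 / 2 + T₀ * Complex.I)‖) ≤
          R / Real.pi * DD L X Q i ε T + 1

/-- The conclusion for a family `L i` with the conductors `X i T` and `Q i T` at height `T`. -/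
def Conclusion (L : ι → ℂ → ℂ) (X Q : ι → ℝ → ℝ) : Prop :=
  LargeValueLaw L X Q ∧
  (∀ θ κ : ℝ, 0 < θ → 0 ≤ κ → Dense L X Q θ κ → ∀ ε : ℝ, 0 < ε → ∃ B : ℝ, ∀ (i : ι) (T : ℝ),
    ‖L i (1 / 2 + T * Complex.I)‖ ≤ B * X i T ^ ε * max (X i T ^ κ) (Q i T ^ ((1 - 1 / θ) / 4))) ∧
  (∀ θ κ : ℝ, 0 < θ → θ ≤ 1 → 0 ≤ κ → (Exponent L X κ ↔ Dense L X Q θ κ)) ∧
  (Exponent L X 0 ↔ ∀ θ : ℝ, 1 < θ → Dense L X Q θ 0) ∧
  (∀ δ : ℝ, 0 ≤ δ → δ ≤ 1 → ZeroDense L X Q δ → ∀ ε : ℝ, 0 < ε → ∃ B : ℝ, ∀ (i : ι) (T : ℝ),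
    ‖L i (1 / 2 + T * Complex.I)‖ ≤ B * X i T ^ ε * Q i T ^ (δ / 4)) ∧
  ((∀ δ : ℝ, 0 < δ → ZeroDense L X Q δ) → Exponent L X 0)

section proofs

open Pool.Agent.H983R4.GL H855R2.SF W587.PL

theorem conclusion_of {L : ι → ℂ → ℂ} {X Q : ι → ℝ → ℝ} (H : Fam2 L X Q) : Conclusion L X Q := by
  refine ⟨?_, fun θ κ hθ hκ h ε hε => TH804.FM.bound_of_dense H hθ hκ h hε,
    fun θ κ hθ hθ1 hκ => TH804.FM.exponent_iff_dense H hθ hθ1 hκ, TH804.FM.lindelof_iff_dense H,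
    fun δ h0 h1 h ε hε => TH804.FM.bound_of_zeros H h0 h1 h hε, fun h => TH804.FM.lindelof_of_zeros H h⟩
  obtain ⟨c, hc, _, h⟩ := TH804.FM.law H
  refine ⟨c, hc, fun ε hε hε1 => ?_⟩
  obtain ⟨W, X₁, _, _, h⟩ := h ε hε hε1
  exact ⟨W, X₁, h⟩

theorem Datum.C_one {m : ℕ} {D : Datum m} (h : 0 < D.N) : 1 ≤ D.C := by
  have := cond_one_le h D.mu 0
  unfold Datum.C
  simpa using this

theorem Datum.Q_le {m : ℕ} {D : Datum m} (t : ℝ) : D.Q t ≤ (1 + |t|) ^ (m : ℝ) * D.C := by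
  have h2 := cond_shift D.N D.mu 0 t
  have e1 : D.N * ∏ j, (1 + ‖D.mu j - ((0 : ℝ) : ℂ) * Complex.I‖) = D.C := by
    unfold Datum.C; simp
  rw [e1, zero_add] at h2
  exact h2

theorem Datum.Q_le' {m : ℕ} {D : Datum m} (h : 0 < D.N) (t : ℝ) :
    D.Q t ≤ ((1 + |t|) * D.C) ^ (m + 1 : ℝ) := by
  have h1 := Datum.C_one h
  have ht : 1 ≤ 1 + |t| := by linarith [abs_nonneg t]
  refine (Datum.Q_le t).trans ?_
  rw [Real.mul_rpow (by positivity) (by linarith)]
  refine mul_le_mul ?_ ?_ (by linarith) (by positivity)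
  · exact Real.rpow_le_rpow_of_exponent_le ht (by linarith)
  · conv_lhs => rw [← Real.rpow_one D.C]
    exact Real.rpow_le_rpow_of_exponent_le h1 (by
      have : (0 : ℝ) ≤ m := Nat.cast_nonneg _
      linarith)

theorem X_shift {m : ℕ} {D : Datum m} (h : 0 < D.N) (t u : ℝ) :
    (1 + |t + u|) * D.C ≤ (1 + |u|) * ((1 + |t|) * D.C) := by
  have h1 := Datum.C_one h
  have h2 : 1 + |t + u| ≤ (1 + |u|) * (1 + |t|) := by
    have := abs_add_le t u
    nlinarith [abs_nonneg t, abs_nonneg u, mul_nonneg (abs_nonneg t) (abs_nonneg u)]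
  calc (1 + |t + u|) * D.C ≤ ((1 + |u|) * (1 + |t|)) * D.C :=
        mul_le_mul_of_nonneg_right h2 (by linarith)
    _ = _ := by ring

theorem right_gl {m : ℕ} {D : ι → Datum m} (hD : ∀ i, (D i).Ok) (hM : Molteni D) :
    ∀ δ : ℝ, 0 < δ → ∃ B : ℝ, ∀ i (s : ℂ), 1 + δ ≤ s.re →
      ‖(D i).f s‖ ≤ B * ((1 + |s.im|) * (D i).C) ^ δ := by
  intro δ hδ
  obtain ⟨B, hB⟩ := hM δ hδ
  refine ⟨|B|, fun i s hs => ?_⟩
  have h1 := Datum.C_one (hD i).N_pos
  refine (hB i s hs).trans ?_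
  have h2 : (D i).C ≤ (1 + |s.im|) * (D i).C := by
    nlinarith [abs_nonneg s.im]
  calc B * (D i).C ^ δ ≤ |B| * (D i).C ^ δ :=
        mul_le_mul_of_nonneg_right (le_abs_self B) (Real.rpow_nonneg (by linarith) _)
    _ ≤ _ := mul_le_mul_of_nonneg_left (Real.rpow_le_rpow (by linarith) h2 hδ.le) (abs_nonneg B)

theorem refl_gl {m : ℕ} {D : Datum m} (hD : D.Ok) {x t : ℝ} (hx0 : 0 ≤ x) (hx1 : x ≤ 3 / 4) :
    ‖D.f ⟨1 / 2 - x, t⟩‖ ≤ 16 ^ m * D.Q t ^ x * ‖D.f ⟨1 / 2 + x, t⟩‖ := by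
  obtain ⟨root, hroot, hfe⟩ := hD.fe
  exact refl_of_fe hD.N_pos D.mu hD.mu_re hroot hfe hx0 hx1

theorem afam_gl {m : ℕ} {D : ι → Datum m} (hD : ∀ i, (D i).Ok) (hM : Molteni D) :
    AFam (m + 1 : ℝ) (fun i => (D i).f) (fun i t => ((1 + |t|) * (D i).C) ^ (m + 1 : ℝ)) where
  m0 := by positivity
  Q1 := by
    intro i t
    refine Real.one_le_rpow ?_ (by positivity)
    have h1 := Datum.C_one (hD i).N_pos
    nlinarith [abs_nonneg t]
  Qs := by
    intro i t u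
    have h1 := Datum.C_one (hD i).N_pos
    rw [← Real.mul_rpow (by positivity) (by positivity)]
    exact Real.rpow_le_rpow (by positivity) (X_shift (hD i).N_pos t u) (by positivity)
  diff := fun i => (hD i).entire
  order := fun i => (hD i).order
  right := by
    intro δ hδ
    obtain ⟨B, hB⟩ := right_gl hD hM δ hδ
    refine ⟨|B|, fun i s hs => ?_⟩
    have h1 := Datum.C_one (hD i).N_pos
    have h0 : 1 ≤ (1 + |s.im|) * (D i).C := by nlinarith [abs_nonneg s.im]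
    refine (hB i s hs).trans ?_
    have h3 : (1 + |s.im|) * (D i).C ≤ ((1 + |s.im|) * (D i).C) ^ (m + 1 : ℝ) := by
      conv_lhs => rw [← Real.rpow_one ((1 + |s.im|) * (D i).C)]
      refine Real.rpow_le_rpow_of_exponent_le h0 ?_
      have : (0 : ℝ) ≤ m := Nat.cast_nonneg _
      linarith
    calc B * ((1 + |s.im|) * (D i).C) ^ δ ≤ |B| * ((1 + |s.im|) * (D i).C) ^ δ :=
          mul_le_mul_of_nonneg_right (le_abs_self B) (Real.rpow_nonneg (by linarith) _)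
      _ ≤ _ := mul_le_mul_of_nonneg_left (Real.rpow_le_rpow (by linarith) h3 hδ.le) (abs_nonneg B)
  refl := by
    refine ⟨16 ^ m, by positivity, fun i x t hx0 hx1 => ?_⟩
    refine (refl_gl (hD i) (t := t) hx0 hx1).trans ?_
    refine mul_le_mul_of_nonneg_right ?_ (norm_nonneg _)
    refine mul_le_mul_of_nonneg_left ?_ (by positivity)
    have h1 := cond_one_le (hD i).N_pos (D i).mu t
    exact Real.rpow_le_rpow (by unfold Datum.Q; linarith) (Datum.Q_le' (hD i).N_pos t) hx0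

theorem fam2_gl {m : ℕ} {D : ι → Datum m} (hD : ∀ i, (D i).Ok) (hM : Molteni D) :
    Fam2 (fun i => (D i).f) (fun i t => (1 + |t|) * (D i).C) (fun i t => (D i).Q t) where
  X1 := by
    intro i t
    have h1 := Datum.C_one (hD i).N_pos
    nlinarith [abs_nonneg t]
  Q1 := fun i t => cond_one_le (hD i).N_pos (D i).mu t
  Xs := ⟨1, zero_le_one, fun i t u => by rw [Real.rpow_one]; exact X_shift (hD i).N_pos t u⟩
  Qs := ⟨m, Nat.cast_nonneg _, fun i t u => cond_shift (D i).N (D i).mu t u⟩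
  QX := ⟨m + 1, by positivity, fun i t => Datum.Q_le' (hD i).N_pos t⟩
  diff := fun i => (hD i).entire
  right := right_gl hD hM
  refl := ⟨16 ^ m, by positivity, fun i x t hx0 hx1 => refl_gl (hD i) hx0 hx1⟩
  crude := by
    obtain ⟨C, hC, h⟩ := crude (afam_gl hD hM)
    exact ⟨C, m + 1, by linarith, by positivity, h⟩

theorem fam2_of_afam {m : ℝ} {L : ι → ℂ → ℂ} {Q : ι → ℝ → ℝ} (H : AFam m L Q) : Fam2 L Q Q where
  X1 := H.Q1
  Q1 := H.Q1
  Xs := ⟨m, H.m0, H.Qs⟩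
  Qs := ⟨m, H.m0, H.Qs⟩
  QX := ⟨1, zero_le_one, fun i t => by rw [Real.rpow_one]⟩
  diff := H.diff
  right := H.right
  refl := H.refl
  crude := by
    obtain ⟨C, hC, h⟩ := crude H
    exact ⟨C, 1, by linarith, zero_le_one, fun i s hs => by rw [Real.rpow_one]; exact h i s hs⟩

theorem Fam2.comp {ι' : Type} {L : ι → ℂ → ℂ} {X Q : ι → ℝ → ℝ} (H : Fam2 L X Q) (g : ι' → ι) :
    Fam2 (fun i => L (g i)) (fun i => X (g i)) (fun i => Q (g i)) where
  X1 := fun i => H.X1 (g i)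
  Q1 := fun i => H.Q1 (g i)
  Xs := by obtain ⟨m, hm, h⟩ := H.Xs; exact ⟨m, hm, fun i => h (g i)⟩
  Qs := by obtain ⟨m, hm, h⟩ := H.Qs; exact ⟨m, hm, fun i => h (g i)⟩
  QX := by obtain ⟨m, hm, h⟩ := H.QX; exact ⟨m, hm, fun i => h (g i)⟩
  diff := fun i => H.diff (g i)
  right := by intro δ hδ; obtain ⟨B, h⟩ := H.right δ hδ; exact ⟨B, fun i => h (g i)⟩
  refl := by obtain ⟨m, hm, h⟩ := H.refl; exact ⟨m, hm, fun i => h (g i)⟩
  crude := by obtain ⟨C, B, hC, hB, h⟩ := H.crude; exact ⟨C, B, hC, hB, fun i => h (g i)⟩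

end proofs

/-- **Large values repel zeros and small values; density criteria for the Grand Lindelöf Hypothesis.** -/
theorem result :
    (∀ (ι : Type) (m : ℕ) (D : ι → Datum m), (∀ i, (D i).Ok) → Molteni D →
      Conclusion (fun i => (D i).f) (fun i T => (1 + |T|) * (D i).C) (fun i T => (D i).Q T)) ∧
    (∀ (ι : Type) (q : ι → ℕ) [∀ i, NeZero (q i)] (χ : (i : ι) → DirichletCharacter ℂ (q i)),
      (∀ i, 1 < q i ∧ (χ i).IsPrimitive) →
      Conclusion (fun i => DirichletCharacter.LFunction (χ i)) (fun i T => (q i : ℝ) * (1 + |T|))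
        (fun i T => (q i : ℝ) * (1 + |T|))) := by
  refine ⟨fun ι m D hD hM => conclusion_of (fam2_gl hD hM), fun ι q _ χ h => conclusion_of ?_⟩
  exact Fam2.comp (fam2_of_afam (H855R2.SF.dir_afam (fun _ _ => True)))
    (fun i => (⟨q i, (h i).1, χ i, (h i).2, trivial⟩ : H855R2.SF.DC (fun _ _ => True)))

end Pool.Agent.Results.MP_52e316_nt.DensityCriterionGLm
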