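import Pool.Agent.TH839.LD.Ins

/-!
# The Grand Lindelöf Hypothesis and the zeros of the derivatives of completed L-functions

Let `Λ(s, π)` be the completed L-function of a cuspidal representation `π` of `GL(m)` (multiplied by
`s (s - 1)` for the trivial representation of `GL(1)`), normalised such that `Λ(1 - s, π)` is up to a constant
factor the complex conjugate of `Λ(conj s, π)`, and let `𝔠 = 𝔠(π, T) = N ∏ (1 + |iT - μ_j|)` be the analytic
conductor at height `T`.  Backlund (1918): the Lindelöf hypothesis for `ζ` holds if and only if `ζ` has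
`o(log T)` zeros in `Re s > 1/2 + δ`, `|Im s - T| ≤ 1`, for each `δ > 0`.  We consider the zeros of the
derivatives `Λ^(n)` of the COMPLETED function.  By the Riemann hypothesis they are on the line `Re s = 1/2`,
and the proportion of zeros on the line increases with `n` (Conrey 1983); for `n ≥ C log 𝔠` all zeros of height
at most `T` are on the line, unconditionally.  So one expects that the information on the zeros of `Λ^(n)` is
weaker for large `n`.  What do the zeros of `Λ^(n)` say about the size of `L(1/2 + iT, π)`?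

Let `N_n(π, T, δ)` be the number of the zeros of `Λ^(n)` in `Re s ≥ 1/2 + δ`, `|Im s - T| ≤ 1`, counted with
multiplicity.  We consider any family of representations `π` of `GL(m)` with bounded archimedean parameters, of any
conductor (the t-aspect and the level aspect).

(1) (Local.)  Let `β ≥ 0`, `ε > 0`.  There are `δ, κ > 0` and `W, X₀` such that for `𝔠 ≥ X₀`: if for ONE
`n ≤ (β + κ) log 𝔠 / log log 𝔠` we have `N_n(π, T', δ) ≤ κ log 𝔠` for `|T' - T| ≤ W log 𝔠`, then
`|L(1/2 + iT, π)| ≤ 𝔠^(β + ε)`.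

So the Lindelöf bound follows from information on the zeros of one derivative of any fixed order, or of order
`o(log 𝔠 / log log 𝔠)`, and the Riemann hypothesis for one derivative of order `β log 𝔠 / log log 𝔠`, `β < 1/4`, still
implies a subconvex bound.

(2) (Local.)  For all `ε, δ > 0` there are `κ > 0` and `W, X₀` such that for `𝔠 ≥ X₀`: if
`|L(1/2 + iT', π)| ≤ 𝔠^κ` for `|T' - T| ≤ W`, then `N_n(π, T, δ) ≤ ε log 𝔠` for ALL `n ≥ 0`.

(3) The following assertions are equivalent for each such family: the Lindelöf hypothesis for the family;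
`N_n(π, T, δ) = o(log 𝔠)` for each `δ > 0`, uniformly in `π`, `T` and in `n ≥ 0`; there are integers
`ν = ν(π, T) ≥ 0` with `ν = o(log 𝔠 / log log 𝔠)` such that for all `δ, W > 0` we have `N_ν(π, T', δ) = o(log 𝔠)`
uniformly for `|T' - T| ≤ W log 𝔠`.

The theorem uses only the classical facts on `Λ(s, π)`: the Euler product with `|α_j(p)| ≤ p^(1/2)` (Jacquet,
Shalika), `Re μ_j ≤ 1/2 - c` (Luo, Rudnick, Sarnak, `c = 1/(m² + 1)`), the functional equation and finite order
(Godement, Jacquet).  For all primitive Dirichlet characters and for the Riemann zeta function they are proved,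
and the theorem holds unconditionally.

Proof.  Let `h = (log 𝔠) / 2`, `f(u) = Λ(1/2 + iT + u)` and `P = |Λ(7/2 + iT)| e^(-3h)`; so `|f(u)|` is
`P e^(hu + o(h))` for real `u > 1`, and the Lindelöf bound is `|f(u)| ≤ P e^(h |Re u| + o(h))`.  The derivatives
have no zeros in `Re s > 2` and `Λ^(n+1)/Λ^(n)` is close to `Λ'/Λ` there, so there are upper and lower bounds for
`f^(n)(u)`, `Re u ≥ 3`, of the same form with `P` replaced by `P_n = |Λ^(n)(7/2 + iT)| e^(-3h)`, for `n = o(h)`.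
Few zeros of `f^(n)` imply `|f^(n)(u)| ≤ P_n e^(hu + o(h))` for `u > δ` by a local form of Backlund's argument
(Borel, Caratheodory, Hadamard).  Now we integrate `n` times along the vertical line from `i∞`, on which
`Λ^(n)` decreases exponentially: each integration costs a factor `O(1)` and `P_n` is at most `(2h)^n P`.  This gives the bound for `f` on the line `Re u = δ` up to the factor
`(32h)^n = 𝔠^(β + o(1))`, and then on `Re u = 0` by the functional equation and the three lines theorem.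
Conversely if the Lindelöf bound holds near `T` then by Cauchy's estimate with the radius `n / h` the derivative
`f^(n)(u)` is at most `h^n P e^(h |Re u| + o(h))`, for `n = O(h)`, and there is a lower bound of the same size at
`u = 4`: by Taylor's formula `f^(n)` cannot be small on a whole interval `[4, R]`, because of the size of `f(R)`, and
it has no zeros on the right, so that one can go back to `4` by the Borel-Caratheodory inequality.  Then
Jensen's formula bounds the number of zeros.  For `n ≥ C h` all zeros are on the line, with an absolute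
constant `C` (modules `Pool.Agent.TH839.UH`).

The modules are `Pool.Agent.TH839.LD`, with parts by helpers 9, 126, 324 and 494.
-/

set_option autoImplicit false

namespace Pool.Agent.Results.MP_52e316_nt.DerivativesGLm

open scoped ComplexConjugate

/-- The data of a standard L-function of `GL(m)`: the conductor `N`, the order `r` of the pole at `s = 1`, the
archimedean parameters `mu j` (the factor at infinity is `∏ j, Γ_ℝ (s - mu j)`), the Satake parameters
`α p j` and the completed function `Λ`. -/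
structure Datum (m : ℕ) where
  N : ℝ
  r : ℕ
  mu : Fin m → ℂ
  α : Nat.Primes → Fin m → ℂ
  Λ : ℂ → ℂ

namespace Datum

variable {m : ℕ}

/-- The gamma factor `(s (s - 1))^r N^(s/2) ∏ j, Γ_ℝ (s - mu j)`. -/
noncomputable def gamma (D : Datum m) (s : ℂ) : ℂ :=
  (s * (s - 1)) ^ D.r * ((D.N : ℂ) ^ (s / 2) * ∏ j, Complex.Gammaℝ (s - D.mu j))

/-- The L-function `L(s) = Λ(s) / gamma(s)` (used for `s = 1/2 + iT` only). -/
noncomputable def L (D : Datum m) (s : ℂ) : ℂ := D.Λ s / D.gamma s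

/-- The analytic conductor at height `T`. -/
noncomputable def C (D : Datum m) (T : ℝ) : ℝ := D.N * ∏ j, (1 + ‖(T : ℂ) * Complex.I - D.mu j‖)

/-- The classical properties: `N ≥ 1`, `r ≤ m`, `|mu j| ≤ A`, `Re (mu j) ≤ 1/2 - c`, `|α p j| ≤ p^(1/2)`, `Λ` is
entire of finite order with the functional equation `Λ(1 - s) = w conj Λ(conj s)`, `|w| = 1`, and for large
`Re s` it is the product of `gamma(s)` and the Euler product `L(s) = ∏ p, ∏ j, (1 - α p j p^(-s))⁻¹`. -/
structure Ok (D : Datum m) (A c : ℝ) : Prop where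
  N_ge : 1 ≤ D.N
  r_le : D.r ≤ m
  mu_le : ∀ j, ‖D.mu j‖ ≤ A
  mu_re : ∀ j, (D.mu j).re ≤ 1 / 2 - c
  satake : ∀ p j, ‖D.α p j‖ ≤ ((p : ℕ) : ℝ) ^ (1 / 2 : ℝ)
  entire : Differentiable ℂ D.Λ
  order : ∃ B ρ : ℝ, ∀ s : ℂ, ‖D.Λ s‖ ≤ Real.exp (B * (1 + ‖s‖) ^ ρ)
  fe : ∃ w : ℂ, ‖w‖ = 1 ∧ ∀ s : ℂ, D.Λ (1 - s) = w * conj (D.Λ (conj s))
  euler : ∃ σ : ℝ, ∀ s : ℂ, σ ≤ s.re →
    D.Λ s = D.gamma s * ∏' p : Nat.Primes, ∏ j, (1 - D.α p j * ((p : ℕ) : ℂ) ^ (-s))⁻¹

end Datum

/-- At most `ν` zeros `s` of the `n`-th derivative of `F` with `Re s ≥ 1/2 + δ`, `|Im s - T| ≤ 1`, counted with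
multiplicity: this holds for every finite set of such zeros. -/
def FewZeros (F : ℂ → ℂ) (n : ℕ) (δ T ν : ℝ) : Prop := ∀ S : Finset ℂ,
  (∀ s ∈ S, iteratedDeriv n F s = 0 ∧ 1 / 2 + δ ≤ s.re ∧ |s.im - T| ≤ 1) →
    ∑ s ∈ S, (analyticOrderNatAt (iteratedDeriv n F) s : ℝ) ≤ ν

variable {ι : Type}

/-- The Lindelöf hypothesis for a family: `|L(1/2 + iT)| = O(𝔠^ε)` for each `ε > 0`, uniformly. -/
def Lindelof (L : ι → ℂ → ℂ) (C : ι → ℝ → ℝ) : Prop := ∀ ε : ℝ, 0 < ε → ∃ B : ℝ, ∀ (i : ι) (T : ℝ),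
  ‖L i (1 / 2 + (T : ℂ) * Complex.I)‖ ≤ B * C i T ^ ε

/-- `N_n(i, T, δ) = o(log 𝔠)` for each `δ > 0`, uniformly in the family and in `n ≥ 0`. -/
def FewAll (Λ : ι → ℂ → ℂ) (C : ι → ℝ → ℝ) : Prop := ∀ δ : ℝ, 0 < δ → ∀ ε : ℝ, 0 < ε → ∃ X₀ : ℝ,
  ∀ (i : ι) (T : ℝ), X₀ ≤ C i T → ∀ n : ℕ, FewZeros (Λ i) n δ T (ε * Real.log (C i T))

/-- There are integers `ν(i, T) = o(log 𝔠 / log log 𝔠)` with `N_ν(i, T', δ) = o(log 𝔠)` for each `δ > 0`,
uniformly for `|T' - T| ≤ W log 𝔠`, for each `W`. -/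
def FewSome (Λ : ι → ℂ → ℂ) (C : ι → ℝ → ℝ) : Prop := ∃ ν : ι → ℝ → ℕ,
  (∀ ε : ℝ, 0 < ε → ∃ X₀ : ℝ, ∀ (i : ι) (T : ℝ), X₀ ≤ C i T →
    ν i T * Real.log (Real.log (C i T)) ≤ ε * Real.log (C i T)) ∧
  ∀ δ : ℝ, 0 < δ → ∀ ε : ℝ, 0 < ε → ∀ W : ℝ, ∃ X₀ : ℝ, ∀ (i : ι) (T : ℝ), X₀ ≤ C i T →
    ∀ T' : ℝ, |T' - T| ≤ W * Real.log (C i T) →
      FewZeros (Λ i) (ν i T) δ T' (ε * Real.log (C i T))

/-- The assertions (1), (2) and (3). -/
def Conclusion (L Λ : ι → ℂ → ℂ) (C : ι → ℝ → ℝ) : Prop :=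
  (∀ β ε : ℝ, 0 ≤ β → 0 < ε → ∃ δ κ W X₀ : ℝ, 0 < δ ∧ 0 < κ ∧ ∀ (i : ι) (T : ℝ) (n : ℕ), X₀ ≤ C i T →
    n * Real.log (Real.log (C i T)) ≤ (β + κ) * Real.log (C i T) →
    (∀ T' : ℝ, |T' - T| ≤ W * Real.log (C i T) → FewZeros (Λ i) n δ T' (κ * Real.log (C i T))) →
      ‖L i (1 / 2 + (T : ℂ) * Complex.I)‖ ≤ C i T ^ (β + ε)) ∧
  (∀ ε δ : ℝ, 0 < ε → 0 < δ → ∃ κ W X₀ : ℝ, 0 < κ ∧ ∀ (i : ι) (T : ℝ), X₀ ≤ C i T →
    (∀ T' : ℝ, |T' - T| ≤ W → ‖L i (1 / 2 + (T' : ℂ) * Complex.I)‖ ≤ C i T ^ κ) →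
      ∀ n : ℕ, FewZeros (Λ i) n δ T (ε * Real.log (C i T))) ∧
  (Lindelof L C ↔ FewAll Λ C) ∧ (Lindelof L C ↔ FewSome Λ C)

section proofs

open Pool.Agent.TH839.LD Pool.Agent.TH839.UH.EP

lemma Conclusion.congr {L L' Λ : ι → ℂ → ℂ} {C : ι → ℝ → ℝ} (h : Conclusion L Λ C)
    (e : ∀ i (T : ℝ), L i (1 / 2 + (T : ℂ) * Complex.I) = L' i (1 / 2 + (T : ℂ) * Complex.I)) :
    Conclusion L' Λ C := by
  unfold Conclusion Lindelof at h ⊢
  simpa only [e] using h

theorem concl {m : ℕ} {A c : ℝ} (hc : 0 < c) (r : ι → ℕ) (N : ι → ℝ)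
    (a : ι → Fin m → ℂ) (α : ι → Nat.Primes → Fin m → ℂ) (X : ι → ℂ → ℂ)
    (h : ∀ i, HW m (r i) (N i) (a i) (α i) (X i)) (hAa : ∀ i j, ‖a i j‖ ≤ A)
    (ha : ∀ i j, -1 / 2 + c ≤ (a i j).re) :
    Conclusion (fun i s => X i s / gm (r i) (N i) (a i) s) X (fun i => cd (N i) (a i)) := by
  have hAa' : ∀ i j, ‖a i j‖ ≤ max A 0 := fun i j => (hAa i j).trans (le_max_left _ _)
  refine ⟨fun β ε hβ hε => ?_, fun ε δ hε hδ => ?_, ?_⟩
  · obtain ⟨δ, κ, W, X₀, hδ, hκ, H⟩ := fam1 m (max A 0) c β ε (le_max_right _ _) hc hβ hε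
    exact ⟨δ, κ, W, X₀, hδ, hκ, fun i T n => H (r i) (N i) (a i) (α i) (X i) (h i) (hAa' i) (ha i) T n⟩
  · obtain ⟨κ, W, X₀, hκ, H⟩ := fam2 m c ε δ hc hε hδ
    exact ⟨κ, W, X₀, hκ, fun i T => H (r i) (N i) (a i) (α i) (X i) (h i) (ha i) T⟩
  · exact fam3 m (max A 0) c (le_max_right _ _) hc r N a α X h hAa' ha

theorem Datum.Ok.hw {m : ℕ} (hm : 0 < m) {D : Datum m} {A c : ℝ} (hc : 0 < c) (h : D.Ok A c) :
    HW m D.r D.N (fun j => -D.mu j) D.α D.Λ := by
  refine ⟨hm, h.r_le, h.N_ge, fun j => ?_, h.satake, h.entire, h.order, ?_, ?_⟩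
  · rw [Complex.neg_re]
    linarith [h.mu_re j]
  · obtain ⟨w, hw, hfe⟩ := h.fe
    refine ⟨w, hw, fun s => ?_⟩
    have := hfe (1 - s)
    rw [sub_sub_cancel, map_sub, map_one] at this
    exact this
  · obtain ⟨σ, hσ⟩ := h.euler
    refine ⟨σ, fun s hs => ?_⟩
    rw [hσ s hs]
    unfold Datum.gamma E
    simp only [← sub_eq_add_neg]

theorem family {m : ℕ} (hm : 0 < m) {A c : ℝ} (hc : 0 < c) {D : ι → Datum m}
    (h : ∀ i, (D i).Ok A c) :
    Conclusion (fun i => (D i).L) (fun i => (D i).Λ) (fun i => (D i).C) := by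
  have H := concl hc (fun i => (D i).r) (fun i => (D i).N) (fun i j => -(D i).mu j)
    (fun i => (D i).α) (fun i => (D i).Λ) (fun i => (h i).hw hm hc)
    (fun i j => by rw [norm_neg]; exact (h i).mu_le j)
    (fun i j => by rw [Complex.neg_re]; linarith [(h i).mu_re j])
  unfold gm cd at H
  simp only [← sub_eq_add_neg] at H
  exact H

theorem dirichlet (q : ι → ℕ) [∀ i, NeZero (q i)] (χ : (i : ι) → DirichletCharacter ℂ (q i))
    (h : ∀ i, 1 < q i ∧ (χ i).IsPrimitive) :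
    Conclusion (fun i => DirichletCharacter.LFunction (χ i))
      (fun i s => (q i : ℂ) ^ (s / 2) * DirichletCharacter.completedLFunction (χ i) s)
      (fun i T => q i * (1 + ‖(T : ℂ) * Complex.I + parity (χ i)‖)) := by
  have H := concl (A := 1) (c := 1 / 2) (by norm_num) (fun _ => 0) (fun i => (q i : ℝ))
    (fun i (_ : Fin 1) => parity (χ i)) (fun i p _ => χ i ((p : ℕ) : ZMod (q i)))
    (fun i s => (q i : ℂ) ^ (s / 2) * DirichletCharacter.completedLFunction (χ i) s)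
    (fun i => dir_hw (q i) (χ i) (h i).1 (h i).2)
    (fun i _ => by rcases parity_cases (χ i) with e | e <;> rw [e] <;> simp)
    (fun i _ => by rcases parity_cases (χ i) with e | e <;> rw [e] <;> norm_num)
  have H2 := H.congr (L' := fun i => DirichletCharacter.LFunction (χ i)) fun i T =>
    dir_L (q i) (χ i) (h i).1 _
  have e : (fun i => cd (q i : ℝ) (fun _ : Fin 1 => parity (χ i))) =
      fun i (T : ℝ) => (q i : ℝ) * (1 + ‖(T : ℂ) * Complex.I + parity (χ i)‖) := by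
    funext i T
    rw [cd_one]
  rw [e] at H2
  exact H2

theorem zeta : Conclusion (fun _ : Unit => riemannZeta)
    (fun _ s => s * (s - 1) * completedRiemannZeta₀ s + 1) (fun _ T => 1 + |T|) := by
  have H := concl (ι := Unit) (A := 0) (c := 1 / 2) (by norm_num) (fun _ => 1) (fun _ => 1)
    (fun _ (_ : Fin 1) => 0) (fun _ _ _ => 1)
    (fun _ s => s * (s - 1) * completedRiemannZeta₀ s + 1) (fun _ => zeta_hw)
    (fun _ _ => by simp) (fun _ _ => by norm_num)
  have H2 := H.congr (L' := fun _ => riemannZeta) fun i T => by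
    refine zeta_L (fun h => ?_) (fun h => ?_)
    · have := congrArg Complex.re h
      norm_num at this
    · have := congrArg Complex.re h
      norm_num at this
  have e : (fun _ : Unit => cd 1 (fun _ : Fin 1 => 0)) = fun _ T => 1 + |T| := by
    funext i T
    rw [cd_one, one_mul, add_zero, norm_mul, Complex.norm_I, mul_one, Complex.norm_real,
      Real.norm_eq_abs]
  rw [e] at H2
  exact H2

end proofs

/-- **The Grand Lindelöf Hypothesis and the zeros of derivatives.** -/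
theorem result :
    (∀ (ι : Type) (m : ℕ) (A c : ℝ) (D : ι → Datum m), 0 < m → 0 < c → (∀ i, (D i).Ok A c) →
      Conclusion (fun i => (D i).L) (fun i => (D i).Λ) (fun i => (D i).C)) ∧
    (∀ (ι : Type) (q : ι → ℕ) [∀ i, NeZero (q i)] (χ : (i : ι) → DirichletCharacter ℂ (q i)),
      (∀ i, 1 < q i ∧ (χ i).IsPrimitive) →
      Conclusion (fun i => DirichletCharacter.LFunction (χ i))
        (fun i s => (q i : ℂ) ^ (s / 2) * DirichletCharacter.completedLFunction (χ i) s)
        (fun i T => q i * (1 + ‖(T : ℂ) * Complex.I + Pool.Agent.TH839.LD.parity (χ i)‖))) ∧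
    Conclusion (fun _ : Unit => riemannZeta)
      (fun _ s => s * (s - 1) * completedRiemannZeta₀ s + 1) (fun _ T => 1 + |T|) :=
  ⟨fun _ _ _ _ _ hm hc h => family hm hc h, fun _ q _ χ h => dirichlet q χ h, zeta⟩

end Pool.Agent.Results.MP_52e316_nt.DerivativesGLm
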