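import Mathlib
import Pool.Agent.TH804.SG10

/-!
# A Speiser-type theorem for the Grand Lindelöf Hypothesis

Speiser (1934): the Riemann hypothesis holds if and only if `ζ'` has no zeros in `0 < Re s < 1/2`.  Backlund (1918):
the Lindelöf hypothesis for `ζ` holds if and only if `ζ` has `o(log T)` zeros in `Re s > 1/2 + δ`, `|Im s - T| ≤ 1`, for
each `δ > 0`.  Here `π` runs through a family of cuspidal representations of `GL(m)`, normalised as in the problem,
`X = (1 + |T|) C_π`, and we count, to the left of the critical line, the zeros of the derivatives of `L(s, π)`, of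
all nonzero differential operators `P(D)L = ∑ p_i L^(i)` with constant coefficients, and the `a`-points of these
functions.

Let `P ≠ 0`, `a` complex, and let `N(π, T, δ)` be the number of the points `s` with `P(D)L(s, π) = a`,
`-1 ≤ Re s ≤ 1/2 - δ`, `|Im s - T| ≤ 1`, counted with multiplicity.

(1) (Local.)  For each `ε > 0` there are `δ, κ > 0` and `W, X₀` such that for `X ≥ X₀`: if `N(π, T', δ) ≤ κ log X` for
`|T' - T| ≤ W`, then `|L(1/2 + iT, π)| ≤ X^ε`.

(2) (Local.)  For all `ε, δ > 0` there are `κ > 0` and `W, X₀` such that for `X ≥ X₀`: if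
`|L(1/2 + iT', π)| ≤ X^κ` for `|T' - T| ≤ W`, then `N(π, T, δ) ≤ ε log X`.

(3) The Lindelöf hypothesis for the family holds if and only if `N(π, T, δ) = o(log X)` for each `δ > 0`,
uniformly in the family.

The theorem uses only classical facts: the functional equation, `Re μ_j < 1/2`, finite order, the normalisation
of the central character, and Molteni's bounds `|L(σ + it, π)|, |1/L(σ + it, π)| ≤ B C_π^ε` in `σ ≥ 1 + ε`.  For
primitive Dirichlet characters of modulus `q > 1` (`m = 1`) all of them are proved, and the result holds with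
`X = q (1 + |T|)`.

Proof.  By the functional equation `P(D)L(s) exp(s log Q)`, `Q` the conductor at height `T`, is of size `X^(o(1))` on
the left of `Re s = 0`, except near the trivial zeros; at least this holds in a vertical strip of fixed width
which contains no real parts of the trivial zeros (pigeonhole principle).  If it has few zeros in `Re s ≤ 1/2 - δ`
then, by a local form of Backlund's argument, it is of size `X^(o(1))` in the whole region.  It remains to go back from
`P(D)L` to `L` on the critical line.  If `|L(1/2 + iT)| ≥ X^ε`, take a (weighted) maximum `M` of `|L(1/2 + it)|` near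
`T`, at `t₀`.  By the three lines theorem `|L(1/2 + x + it)| ≤ M X^(-cx)` for `x > 0` and `t` near `t₀`.  If
`(D - λ)L` were small near `1/2 + it₀`, then `L(1/2 + x + it₀)` would be almost constant in `x` (up to the factor
`e^(λx)`), a contradiction.  Repeating this for the factors of `P`, `P(D)L` is almost as large as `M` at some point
close to `1/2 + it₀`, which contradicts the bound on the left, by the three circles theorem.
-/

set_option autoImplicit false

open Polynomial

namespace Pool.Agent.Results.MP_52e316_nt.SpeiserGLm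

/-- The data of a standard L-function of `GL(m)`: the conductor `N`, the archimedean parameters `mu j` (the
factor at infinity is `∏ j, Γ_ℝ (s - mu j)`) and the L-function `f` (continued to the complex plane). -/
structure Datum (m : ℕ) where
  N : ℕ
  mu : Fin m → ℂ
  f : ℂ → ℂ

/-- The analytic conductor `C = N ∏ j, (1 + |mu j|)`. -/
noncomputable def Datum.C {m : ℕ} (D : Datum m) : ℝ := D.N * ∏ j, (1 + ‖D.mu j‖)

/-- The classical properties: `N ≥ 1`, `Re (mu j) < 1/2`, `∑ Im (mu j) = 0` (the central character is trivial on the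
positive reals), `f` is entire, of finite order in the strip `-1/4 ≤ Re s ≤ 5/4`, and satisfies the functional equation
`Λ(s) = root N^(1/2-s) conj (Λ(1 - conj s))`, `Λ(s) = f(s) ∏ j, Γ_ℝ (s - mu j)`, with `|root| = 1` (divided
by the gamma factors of both sides). -/
structure Datum.Ok {m : ℕ} (D : Datum m) : Prop where
  N_pos : 0 < D.N
  mu_re : ∀ j, (D.mu j).re < 1 / 2
  mu_im : ∑ j, (D.mu j).im = 0
  entire : Differentiable ℂ D.f
  order : ∃ A : ℝ, ∀ s : ℂ, -1 / 4 ≤ s.re → s.re ≤ 5 / 4 →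
    ‖D.f s‖ ≤ Real.exp (A * (1 + |s.im|) ^ A)
  fe : ∃ root : ℂ, ‖root‖ = 1 ∧ ∀ s : ℂ,
    D.f s * ∏ j, (Complex.Gammaℝ (1 - s - (starRingEnd ℂ) (D.mu j)))⁻¹ =
      root * (D.N : ℂ) ^ (1 / 2 - s) * (starRingEnd ℂ) (D.f (1 - (starRingEnd ℂ) s)) *
        ∏ j, (Complex.Gammaℝ (s - D.mu j))⁻¹

variable {ι : Type}

/-- Molteni's bounds to the right of the critical strip for `f` and `1/f`, uniform in the family. -/
def Molteni {m : ℕ} (D : ι → Datum m) : Prop := ∀ ε : ℝ, 0 < ε → ∃ B : ℝ, ∀ (i : ι) (s : ℂ),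
  1 + ε ≤ s.re → ‖(D i).f s‖ ≤ B * (D i).C ^ ε ∧ 1 ≤ B * (D i).C ^ ε * ‖(D i).f s‖

/-- `P(D)F = ∑ p_i F^(i)`, for `P = ∑ p_i X^i`. -/
noncomputable def op (P : ℂ[X]) (F : ℂ → ℂ) (s : ℂ) : ℂ := P.sum fun i c => c * iteratedDeriv i F s

/-- At most `n` points `s` with `P(D)F(s) = a`, `-1 ≤ Re s ≤ 1/2 - δ`, `|Im s - T| ≤ 1`, counted with multiplicity
(the order of the zero of `P(D)F - a`): this holds for every finite set of such points. -/
def FewPts (P : ℂ[X]) (a : ℂ) (F : ℂ → ℂ) (δ T n : ℝ) : Prop := ∀ S : Finset ℂ,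
  (∀ s ∈ S, -1 ≤ s.re ∧ s.re ≤ 1 / 2 - δ ∧ |s.im - T| ≤ 1 ∧ op P F s = a) →
    ∑ s ∈ S, (analyticOrderNatAt (fun s => op P F s - a) s : ℝ) ≤ n

/-- `|L i (1/2 + iT)| = O(X^ε)`, uniformly in the family, for each `ε > 0`. -/
def Lindelof (L : ι → ℂ → ℂ) (X : ι → ℝ → ℝ) : Prop := ∀ ε : ℝ, 0 < ε → ∃ B : ℝ, ∀ (i : ι) (T : ℝ),
  ‖L i (1 / 2 + T * Complex.I)‖ ≤ B * X i T ^ ε

/-- The three assertions, for a family `L i` with the conductor `X i T` at height `T`. -/
def Conclusion (P : ℂ[X]) (a : ℂ) (L : ι → ℂ → ℂ) (X : ι → ℝ → ℝ) : Prop :=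
  -- (1) few points imply small values
  (∀ ε : ℝ, 0 < ε → ∃ δ κ W X₀ : ℝ, 0 < δ ∧ 0 < κ ∧ ∀ (i : ι) (T : ℝ), X₀ ≤ X i T →
    (∀ T' : ℝ, |T' - T| ≤ W → FewPts P a (L i) δ T' (κ * Real.log (X i T))) →
      ‖L i (1 / 2 + T * Complex.I)‖ ≤ X i T ^ ε) ∧
  -- (2) small values imply few points
  (∀ ε δ : ℝ, 0 < ε → 0 < δ → ∃ κ W X₀ : ℝ, 0 < κ ∧ ∀ (i : ι) (T : ℝ), X₀ ≤ X i T →
    (∀ T' : ℝ, |T' - T| ≤ W → ‖L i (1 / 2 + T' * Complex.I)‖ ≤ X i T ^ κ) →
      FewPts P a (L i) δ T (ε * Real.log (X i T))) ∧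
  -- (3) the Lindelöf hypothesis for the family
  (Lindelof L X ↔ ∀ δ : ℝ, 0 < δ → ∀ ε : ℝ, 0 < ε → ∃ X₀ : ℝ, ∀ (i : ι) (T : ℝ), X₀ ≤ X i T →
    FewPts P a (L i) δ T (ε * Real.log (X i T)))

section proofs

open TH804.SG

theorem conclusion_of {P : ℂ[X]} (hP : P ≠ 0) (a : ℂ) {L : ι → ℂ → ℂ} {X : ι → ℝ → ℝ} (H : Grow L X) :
    Conclusion P a L X :=
  ⟨fun _ hε => H.small_of_few hP a hε, fun _ _ hε hδ => H.few_of_small hP a hε hδ, H.lind_iff hP a⟩

theorem gld {m : ℕ} (hm : 0 < m) {D : ι → Datum m} (hD : ∀ i, (D i).Ok) (hM : Molteni D) :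
    GLd m (fun i => (D i).N) (fun i => (D i).mu) (fun i => (D i).f) where
  m_pos := hm
  N_pos := fun i => (hD i).N_pos
  mu_re := fun i => (hD i).mu_re
  norm := fun i => (hD i).mu_im
  entire := fun i => (hD i).entire
  order := fun i => (hD i).order
  fe := fun i => (hD i).fe
  right := fun ε hε => by
    obtain ⟨B, h⟩ := hM ε hε
    exact ⟨B, fun i s hs => (h i s hs).1⟩
  inv := fun ε hε => by
    obtain ⟨B, h⟩ := hM ε hε
    exact ⟨B, fun i s hs => (h i s hs).2⟩

end proofs

/-- **A Speiser-type theorem for the Grand Lindelöf Hypothesis.** -/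
theorem result (P : ℂ[X]) (hP : P ≠ 0) (a : ℂ) :
    (∀ (ι : Type) (m : ℕ) (D : ι → Datum m), 0 < m → (∀ i, (D i).Ok) → Molteni D →
      Conclusion P a (fun i => (D i).f) (fun i T => (1 + |T|) * (D i).C)) ∧
    (∀ (ι : Type) (q : ι → ℕ) [∀ i, NeZero (q i)] (χ : (i : ι) → DirichletCharacter ℂ (q i)),
      (∀ i, 1 < q i ∧ (χ i).IsPrimitive) →
      Conclusion P a (fun i => DirichletCharacter.LFunction (χ i)) (fun i T => (q i : ℝ) * (1 + |T|))) :=
  ⟨fun _ _ _ hm hD hM => conclusion_of hP a (gld hm hD hM).grow,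
    fun _ q _ χ h => conclusion_of hP a (TH804.SG.dir_grow q χ h)⟩

end Pool.Agent.Results.MP_52e316_nt.SpeiserGLm
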