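import Mathlib
import Pool.Agent.TH809.MZ.GL3

/-!
# Clusters of zeros of L-functions of `GL(m)` force large values on the critical line

Let `π` run through a family of cuspidal representations of `GL(m)`, normalised as in the problem, let
`X = (1 + |T|) C_π` and let `Q = N ∏ (1 + |μ_j - iT|)` be the analytic conductor at height `T`.  Let `N(π, T, h)` be
the number of zeros `s` of `L(s, π)` with `0 ≤ Re s ≤ 1`, `|Im s - T| ≤ h`, counted with multiplicity.

**The law.**  For every `ε > 0` there are `h > 0` and `W, K`, such that for all `π` in the family and all `T`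
* `N(π, T, h) ≤ (1/2π) log Q + ε log X + K`;
* if `|L(1/2 + ix, π)| ≤ V` for `|x - T| ≤ W`, where `1 ≤ V ≤ Q^(1/4)`, then
  `N(π, T, h) ≤ (1/π) √(2 log V (log Q - 2 log V)) + ε log X + K`.

So if a single zero has multiplicity `α log Q`, or `α log Q` zeros cluster (also off the critical line), then
`|L(1/2 + ix, π)| ≥ Q^κ X^(-ε')` at some `x` at bounded distance from `T`, where `α = (1/π) √(2κ(1 - 2κ))`.  No `L`-function
of the family has a zero of multiplicity `> (1/2π + ε) log X` for large `X`.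

**Global exponents.**  If `L(1/2 + iT, π) = O(X^ε Q^κ)` for every `ε > 0`, where `0 ≤ κ ≤ 1/4`, then for every `ε > 0` there
are `h > 0` and `K` with `N(π, T, h) ≤ (1/π) √(2κ(1 - 2κ)) log Q + ε log X + K`.  The case `κ = 0` is the Grand Lindelöf
Hypothesis for the family: then `N(π, T, h) ≤ ε log X + K`.

The theorem uses only classical facts: the functional equation, `Re μ_j < 1/2`, finite order and Molteni's bounds
`|L(σ + it, π)|, |1/L(σ + it, π)| ≤ B C_π^ε` in `σ ≥ 1 + ε`.  For primitive Dirichlet characters of modulus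
`q > 1` (`m = 1`) all of them are proved and the result holds with `X = Q = q (1 + |T|)`.

Proof.  Let `F(z) = L(1/2 + iT + z, π)`.  For a finite set of zeros near `0` (with `|Re z| ≤ 1/2`) one divides
`F(z) F(-z)` by the Blaschke factors of the symmetric strip `|Re z| < 1/2 + δ` with the slit `[-1/2, 1/2]` removed, mapped
conformally to a quarter plane.  The Phragmén–Lindelöf principle is applied with the boundary values on the edges
(the bound for `1/L` is used at one point `x₀` just inside the right edge, chosen away from the trivial zeros), and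
`log |F(z)F(-z)|` on the imaginary axis is at most `2 log V`.  The optimal position of the slit gives the constant.
The condition on `|x - T| ≤ W` suffices since one may multiply by `exp(c z²) X^(λ z²)`.
-/

set_option autoImplicit false

open Filter Topology Real Set

namespace Pool.Agent.Results.MP_52e316_nt.ZeroClustersGLm

/-- The data of a standard L-function of `GL(m)`: the conductor `N`, the archimedean parameters `mu j` (the
factor at infinity is `∏ j, Γ_ℝ (s - mu j)`) and the L-function `f` (continued to the complex plane). -/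
structure Datum (m : ℕ) where
  N : ℕ
  mu : Fin m → ℂ
  f : ℂ → ℂ

/-- The analytic conductor `C = N ∏ j, (1 + |mu j|)`. -/
noncomputable def Datum.C {m : ℕ} (D : Datum m) : ℝ := D.N * ∏ j, (1 + ‖D.mu j‖)

/-- The analytic conductor at height `t`, `Q = N ∏ j, (1 + |mu j - i t|)`. -/
noncomputable def Datum.Q {m : ℕ} (D : Datum m) (t : ℝ) : ℝ :=
  D.N * ∏ j, (1 + ‖D.mu j - t * Complex.I‖)

/-- The classical properties: `N ≥ 1`, `Re (mu j) < 1/2`, `f` is entire, of finite order in the strip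
`-1/4 ≤ Re s ≤ 5/4`, and satisfies the functional equation `Λ(s) = root N^(1/2-s) conj (Λ(1 - conj s))`,
`Λ(s) = f(s) ∏ j, Γ_ℝ (s - mu j)`, with `|root| = 1` (divided by the gamma factors of both sides). -/
structure Datum.Ok {m : ℕ} (D : Datum m) : Prop where
  N_pos : 0 < D.N
  mu_re : ∀ j, (D.mu j).re < 1 / 2
  entire : Differentiable ℂ D.f
  order : ∃ A : ℝ, ∀ s : ℂ, -1 / 4 ≤ s.re → s.re ≤ 5 / 4 →
    ‖D.f s‖ ≤ Real.exp (A * (1 + |s.im|) ^ A)
  fe : ∃ root : ℂ, ‖root‖ = 1 ∧ ∀ s : ℂ,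
    D.f s * ∏ j, (Complex.Gammaℝ (1 - s - (starRingEnd ℂ) (D.mu j)))⁻¹ =
      root * (D.N : ℂ) ^ (1 / 2 - s) * (starRingEnd ℂ) (D.f (1 - (starRingEnd ℂ) s)) *
        ∏ j, (Complex.Gammaℝ (s - D.mu j))⁻¹

variable {ι : Type}

/-- Molteni's bounds to the right of the critical strip for `f` and `1/f`, uniform in the family. -/
def Molteni {m : ℕ} (D : ι → Datum m) : Prop := ∀ ε : ℝ, 0 < ε → ∃ B : ℝ, ∀ (i : ι) (s : ℂ),
  1 + ε ≤ s.re → ‖(D i).f s‖ ≤ B * (D i).C ^ ε ∧ 1 ≤ B * (D i).C ^ ε * ‖(D i).f s‖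

/-- The zeros `s` of `L` with `0 ≤ Re s ≤ 1` and `|Im s - T| ≤ h`. -/
def Zeros (L : ℂ → ℂ) (T h : ℝ) : Set ℂ := {s : ℂ | L s = 0 ∧ 0 ≤ s.re ∧ s.re ≤ 1 ∧ |s.im - T| ≤ h}

/-- Their number, counted with multiplicity. -/
noncomputable def num (L : ℂ → ℂ) (T h : ℝ) : ℕ := ∑ᶠ s ∈ Zeros L T h, analyticOrderNatAt L s

/-- The law for clusters of zeros, for a family `L i` with the conductors `X i T` and `Q i T` at height `T`. -/
def ClusterLaw (L : ι → ℂ → ℂ) (X Q : ι → ℝ → ℝ) : Prop := ∀ ε : ℝ, 0 < ε → ∃ h W K : ℝ, 0 < h ∧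
  ∀ (i : ι) (T : ℝ), (Zeros (L i) T h).Finite ∧
    (num (L i) T h : ℝ) ≤ Real.log (Q i T) / (2 * Real.pi) + ε * Real.log (X i T) + K ∧
    ∀ V : ℝ, 1 ≤ V → V ≤ Q i T ^ (1 / 4 : ℝ) →
      (∀ x : ℝ, |x - T| ≤ W → ‖L i (1 / 2 + x * Complex.I)‖ ≤ V) →
      (num (L i) T h : ℝ) ≤ Real.sqrt (2 * Real.log V * (Real.log (Q i T) - 2 * Real.log V)) / Real.pi +
        ε * Real.log (X i T) + K

/-- The bound which follows from an exponent `κ` on the critical line. -/
def ExponentLaw (L : ι → ℂ → ℂ) (X Q : ι → ℝ → ℝ) : Prop := ∀ κ : ℝ, 0 ≤ κ → κ ≤ 1 / 4 →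
  (∀ ε : ℝ, 0 < ε → ∃ B : ℝ, ∀ (i : ι) (T : ℝ), ‖L i (1 / 2 + T * Complex.I)‖ ≤ B * X i T ^ ε * Q i T ^ κ) →
  ∀ ε : ℝ, 0 < ε → ∃ h K : ℝ, 0 < h ∧ ∀ (i : ι) (T : ℝ), (Zeros (L i) T h).Finite ∧
    (num (L i) T h : ℝ) ≤
      Real.sqrt (2 * κ * (1 - 2 * κ)) / Real.pi * Real.log (Q i T) + ε * Real.log (X i T) + K

section proofs

open H855R2.SF W587.PL TH809.MZ

theorem conclusion_of {L : ι → ℂ → ℂ} {X Q : ι → ℝ → ℝ} (H : Fam2 L X Q)
    (H2 : LFam (fun (j : ι × ℝ) (z : ℂ) => L j.1 (1 / 2 + j.2 * Complex.I + z)) (fun j => Q j.1 j.2)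
      (fun j => X j.1 j.2)) (hne : ∀ i, ∃ s, L i s ≠ 0) : ClusterLaw L X Q ∧ ExponentLaw L X Q := by
  refine ⟨fun ε hε => ?_, fun κ h0 h1 hκ ε hε => exp_fam H H2 hne h0 h1 hκ hε⟩
  obtain ⟨h, W, K, hh, _, h1⟩ := law_fam H2 H.diff hne hε
  exact ⟨h, W, K, hh, h1⟩

theorem Datum.C_one {m : ℕ} {D : Datum m} (h : 0 < D.N) : 1 ≤ D.C := by
  have := cond_one_le h D.mu 0
  unfold Datum.C
  simpa using this

theorem Datum.Q_le {m : ℕ} {D : Datum m} (t : ℝ) : D.Q t ≤ (1 + |t|) ^ (m : ℝ) * D.C := by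
  have h2 := cond_shift D.N D.mu 0 t
  have e1 : D.N * ∏ j, (1 + ‖D.mu j - ((0 : ℝ) : ℂ) * Complex.I‖) = D.C := by
    unfold Datum.C; simp
  rw [e1, zero_add] at h2
  exact h2

theorem Datum.Q_le' {m : ℕ} {D : Datum m} (h : 0 < D.N) (t : ℝ) :
    D.Q t ≤ ((1 + |t|) * D.C) ^ (m + 1 : ℝ) := by
  have h1 := Datum.C_one h
  have ht : 1 ≤ 1 + |t| := by linarith [abs_nonneg t]
  refine (Datum.Q_le t).trans ?_
  rw [Real.mul_rpow (by positivity) (by linarith)]
  refine mul_le_mul ?_ ?_ (by linarith) (by positivity)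
  · exact Real.rpow_le_rpow_of_exponent_le ht (by linarith)
  · conv_lhs => rw [← Real.rpow_one D.C]
    exact Real.rpow_le_rpow_of_exponent_le h1 (by
      have : (0 : ℝ) ≤ m := Nat.cast_nonneg _
      linarith)

theorem X_shift {m : ℕ} {D : Datum m} (h : 0 < D.N) (t u : ℝ) :
    (1 + |t + u|) * D.C ≤ (1 + |u|) * ((1 + |t|) * D.C) := by
  have h1 := Datum.C_one h
  have h2 : 1 + |t + u| ≤ (1 + |u|) * (1 + |t|) := by
    have := abs_add_le t u
    nlinarith [abs_nonneg t, abs_nonneg u, mul_nonneg (abs_nonneg t) (abs_nonneg u)]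
  calc (1 + |t + u|) * D.C ≤ ((1 + |u|) * (1 + |t|)) * D.C :=
        mul_le_mul_of_nonneg_right h2 (by linarith)
    _ = _ := by ring

theorem right_gl {m : ℕ} {D : ι → Datum m} (hD : ∀ i, (D i).Ok) (hM : Molteni D) :
    ∀ δ : ℝ, 0 < δ → ∃ B : ℝ, ∀ i (s : ℂ), 1 + δ ≤ s.re →
      ‖(D i).f s‖ ≤ B * ((1 + |s.im|) * (D i).C) ^ δ := by
  intro δ hδ
  obtain ⟨B, hB⟩ := hM δ hδ
  refine ⟨|B|, fun i s hs => ?_⟩
  have h1 := Datum.C_one (hD i).N_pos
  refine (hB i s hs).1.trans ?_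
  have h2 : (D i).C ≤ (1 + |s.im|) * (D i).C := by
    nlinarith [abs_nonneg s.im]
  calc B * (D i).C ^ δ ≤ |B| * (D i).C ^ δ :=
        mul_le_mul_of_nonneg_right (le_abs_self B) (Real.rpow_nonneg (by linarith) _)
    _ ≤ _ := mul_le_mul_of_nonneg_left (Real.rpow_le_rpow (by linarith) h2 hδ.le) (abs_nonneg B)

theorem low_gl {m : ℕ} {D : ι → Datum m} (hD : ∀ i, (D i).Ok) (hM : Molteni D) :
    ∀ δ : ℝ, 0 < δ → ∃ B : ℝ, ∀ i (s : ℂ), 1 + δ ≤ s.re →
      1 ≤ B * ((1 + |s.im|) * (D i).C) ^ δ * ‖(D i).f s‖ := by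
  intro δ hδ
  obtain ⟨B, hB⟩ := hM δ hδ
  refine ⟨|B|, fun i s hs => ?_⟩
  have h1 := Datum.C_one (hD i).N_pos
  refine (hB i s hs).2.trans ?_
  have h2 : (D i).C ≤ (1 + |s.im|) * (D i).C := by
    nlinarith [abs_nonneg s.im]
  apply mul_le_mul_of_nonneg_right _ (norm_nonneg _)
  calc B * (D i).C ^ δ ≤ |B| * (D i).C ^ δ :=
        mul_le_mul_of_nonneg_right (le_abs_self B) (Real.rpow_nonneg (by linarith) _)
    _ ≤ _ := mul_le_mul_of_nonneg_left (Real.rpow_le_rpow (by linarith) h2 hδ.le) (abs_nonneg B)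

theorem refl_gl {m : ℕ} {D : Datum m} (hD : D.Ok) {x t : ℝ} (hx0 : 0 ≤ x) (hx1 : x ≤ 3 / 4) :
    ‖D.f ⟨1 / 2 - x, t⟩‖ ≤ 16 ^ m * D.Q t ^ x * ‖D.f ⟨1 / 2 + x, t⟩‖ := by
  obtain ⟨root, hroot, hfe⟩ := hD.fe
  exact refl_of_fe hD.N_pos D.mu hD.mu_re hroot hfe hx0 hx1

theorem afam_gl {m : ℕ} {D : ι → Datum m} (hD : ∀ i, (D i).Ok) (hM : Molteni D) :
    AFam (m + 1 : ℝ) (fun i => (D i).f) (fun i t => ((1 + |t|) * (D i).C) ^ (m + 1 : ℝ)) where
  m0 := by positivity
  Q1 := by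
    intro i t
    refine Real.one_le_rpow ?_ (by positivity)
    have h1 := Datum.C_one (hD i).N_pos
    nlinarith [abs_nonneg t]
  Qs := by
    intro i t u
    have h1 := Datum.C_one (hD i).N_pos
    rw [← Real.mul_rpow (by positivity) (by positivity)]
    exact Real.rpow_le_rpow (by positivity) (X_shift (hD i).N_pos t u) (by positivity)
  diff := fun i => (hD i).entire
  order := fun i => (hD i).order
  right := by
    intro δ hδ
    obtain ⟨B, hB⟩ := right_gl hD hM δ hδ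
    refine ⟨|B|, fun i s hs => ?_⟩
    have h1 := Datum.C_one (hD i).N_pos
    have h0 : 1 ≤ (1 + |s.im|) * (D i).C := by nlinarith [abs_nonneg s.im]
    refine (hB i s hs).trans ?_
    have h3 : (1 + |s.im|) * (D i).C ≤ ((1 + |s.im|) * (D i).C) ^ (m + 1 : ℝ) := by
      conv_lhs => rw [← Real.rpow_one ((1 + |s.im|) * (D i).C)]
      refine Real.rpow_le_rpow_of_exponent_le h0 ?_
      have : (0 : ℝ) ≤ m := Nat.cast_nonneg _
      linarith
    calc B * ((1 + |s.im|) * (D i).C) ^ δ ≤ |B| * ((1 + |s.im|) * (D i).C) ^ δ :=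
          mul_le_mul_of_nonneg_right (le_abs_self B) (Real.rpow_nonneg (by linarith) _)
      _ ≤ _ := mul_le_mul_of_nonneg_left (Real.rpow_le_rpow (by linarith) h3 hδ.le) (abs_nonneg B)
  refl := by
    refine ⟨16 ^ m, by positivity, fun i x t hx0 hx1 => ?_⟩
    refine (refl_gl (hD i) (t := t) hx0 hx1).trans ?_
    refine mul_le_mul_of_nonneg_right ?_ (norm_nonneg _)
    refine mul_le_mul_of_nonneg_left ?_ (by positivity)
    have h1 := cond_one_le (hD i).N_pos (D i).mu t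
    exact Real.rpow_le_rpow (by unfold Datum.Q; linarith) (Datum.Q_le' (hD i).N_pos t) hx0

theorem fam2_gl {m : ℕ} {D : ι → Datum m} (hD : ∀ i, (D i).Ok) (hM : Molteni D) :
    Fam2 (fun i => (D i).f) (fun i t => (1 + |t|) * (D i).C) (fun i t => (D i).Q t) where
  X1 := by
    intro i t
    have h1 := Datum.C_one (hD i).N_pos
    nlinarith [abs_nonneg t]
  Q1 := fun i t => cond_one_le (hD i).N_pos (D i).mu t
  Xs := ⟨1, zero_le_one, fun i t u => by rw [Real.rpow_one]; exact X_shift (hD i).N_pos t u⟩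
  Qs := ⟨m, Nat.cast_nonneg _, fun i t u => cond_shift (D i).N (D i).mu t u⟩
  QX := ⟨m + 1, by positivity, fun i t => Datum.Q_le' (hD i).N_pos t⟩
  diff := fun i => (hD i).entire
  right := right_gl hD hM
  refl := ⟨16 ^ m, by positivity, fun i x t hx0 hx1 => refl_gl (hD i) hx0 hx1⟩
  crude := by
    obtain ⟨C, hC, h⟩ := Pool.Agent.H983R4.GL.crude (afam_gl hD hM)
    exact ⟨C, m + 1, by linarith, by positivity, h⟩

theorem lfam_gl {m : ℕ} {D : ι → Datum m} (hD : ∀ i, (D i).Ok) (hM : Molteni D) :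
    LFam (fun (j : ι × ℝ) (z : ℂ) => (D j.1).f (1 / 2 + j.2 * Complex.I + z)) (fun j => (D j.1).Q j.2)
      (fun j => (1 + |j.2|) * (D j.1).C) := by
  refine lfam_of (fam2_gl hD hM) (low_gl hD hM) ?_
  intro δ hδ hδ1
  obtain ⟨G, hG, hG2⟩ := grid (m := m) hδ
  have hm : (0:ℝ) < 4 * ((m:ℝ) + 1) := by positivity
  have hc : 0 < δ / (4 * ((m:ℝ) + 1)) := by positivity
  refine ⟨G, (4000 / (δ / (4 * ((m:ℝ) + 1)))) ^ m, hG, by positivity, fun i t => ?_⟩
  obtain ⟨γ, hγ, hγ2⟩ := hG2 fun j => δ + ((D i).mu j).re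
  refine ⟨γ, hγ, ?_⟩
  obtain ⟨root, hroot, hfe⟩ := (hD i).fe
  obtain ⟨hγa, hγb⟩ := hG γ hγ
  refine refl_low (hD i).N_pos (D i).mu (hD i).mu_re hroot hfe hc ?_ (by linarith) (by linarith) ?_
  · rw [div_le_one hm]
    have : (0:ℝ) ≤ m := Nat.cast_nonneg _
    linarith
  · intro j
    refine (hγ2 j).trans ?_
    refine le_trans (le_of_eq ?_) (Complex.abs_re_le_norm _)
    congr 1
    simp only [Complex.sub_re]
    ring

theorem ne_gl {m : ℕ} {D : ι → Datum m} (hM : Molteni D) (i : ι) : ∃ s, (D i).f s ≠ 0 := by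
  obtain ⟨B, hB⟩ := hM 1 one_pos
  refine ⟨2, fun h => ?_⟩
  have h1 := (hB i 2 (by norm_num)).2
  rw [h, norm_zero, mul_zero] at h1
  linarith

end proofs

/-- **Clusters of zeros of L-functions of `GL(m)` force large values on the critical line.** -/
theorem result :
    (∀ (ι : Type) (m : ℕ) (D : ι → Datum m), (∀ i, (D i).Ok) → Molteni D →
      ClusterLaw (fun i => (D i).f) (fun i T => (1 + |T|) * (D i).C) (fun i T => (D i).Q T) ∧
      ExponentLaw (fun i => (D i).f) (fun i T => (1 + |T|) * (D i).C) (fun i T => (D i).Q T)) ∧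
    (∀ (ι : Type) (q : ι → ℕ) [∀ i, NeZero (q i)] (χ : (i : ι) → DirichletCharacter ℂ (q i)),
      (∀ i, 1 < q i ∧ (χ i).IsPrimitive) →
      ClusterLaw (fun i => DirichletCharacter.LFunction (χ i)) (fun i T => (q i : ℝ) * (1 + |T|))
        (fun i T => (q i : ℝ) * (1 + |T|)) ∧
      ExponentLaw (fun i => DirichletCharacter.LFunction (χ i)) (fun i T => (q i : ℝ) * (1 + |T|))
        (fun i T => (q i : ℝ) * (1 + |T|))) :=
  ⟨fun _ _ _ hD hM => conclusion_of (fam2_gl hD hM) (lfam_gl hD hM) (ne_gl hM),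
    fun _ q _ χ h => conclusion_of (TH809.MZ.fam2_dir q χ h) (TH809.MZ.lfam_dir q χ h)
      fun i => TH809.MZ.ne_dir (χ i)⟩

end Pool.Agent.Results.MP_52e316_nt.ZeroClustersGLm
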